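import Pool.Agent.Helper19.Qh.Stmts

set_option autoImplicit false

/-!
# Module DIFF : smoothness and measurability of the action
-/

namespace Pool.Agent.Helper19.Qh

open MeasureTheory Topology

variable {m : ℕ}

theorem diff_vec : ContDiff ℝ 2 (vec : Pt m → V m) := by
  unfold vec
  exact contDiff_fst.prodMk (contDiff_snd.prodMk contDiff_const)

theorem diff_gvec (g : V m ≃ₗ[Q] V m) : ContDiff ℝ 2 (fun p : Pt m => g (vec p)) := by
  have h1 : ContDiff ℝ 2 (fun x : V m => g x) :=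
    (LinearMap.toContinuousLinearMap (g.toLinearMap.restrictScalars ℝ)).contDiff
  exact h1.comp diff_vec

theorem diff_gvec_meas (g : V m ≃ₗ[Q] V m) : Measurable (fun p : Pt m => g (vec p)) :=
  (diff_gvec g).continuous.measurable

theorem diff_inv_at {q : Q} (hq : q ≠ 0) : ContDiffAt ℝ 2 (fun x : Q => x⁻¹) q := by
  have h := contDiffAt_ringInverse ℝ (n := 2) (Units.mk0 q hq)
  rw [Ring.inverse_eq_inv'] at h
  exact h

theorem st_CD : ST_CD := by
  intro m g hg
  have h := diff_gvec g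
  have h1 : ContDiffOn ℝ 2 (fun p : Pt m => (g (vec p)).1) (SD m) :=
    (contDiff_fst.comp h).contDiffOn
  have h2 : ContDiffOn ℝ 2 (fun p : Pt m => (g (vec p)).2.1) (SD m) :=
    (contDiff_fst.comp (contDiff_snd.comp h)).contDiffOn
  have h3 : ContDiffOn ℝ 2 (fun p : Pt m => (g (vec p)).2.2) (SD m) :=
    (contDiff_snd.comp (contDiff_snd.comp h)).contDiffOn
  have h4 : ContDiffOn ℝ 2 (fun p : Pt m => ((g (vec p)).2.2)⁻¹) (SD m) := by
    intro p hp
    exact (diff_inv_at (x3_ne hg hp)).comp_contDiffWithinAt p (h3 p hp)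
  have h5 : ContDiffOn ℝ 2 (fun p : Pt m => ((g (vec p)).2.2)⁻¹ * (g (vec p)).1) (SD m) :=
    h4.mul h1
  have h6 : ContDiffOn ℝ 2 (fun p : Pt m => ((g (vec p)).2.2)⁻¹ • (g (vec p)).2.1) (SD m) :=
    h4.smul h2
  exact h5.prodMk h6

theorem st_ME : ST_ME := by
  intro m g
  have h := diff_gvec_meas g
  have h1 : Measurable (fun p : Pt m => (g (vec p)).1) := h.fst
  have h2 : Measurable (fun p : Pt m => (g (vec p)).2.1) := h.snd.fst
  have h3 : Measurable (fun p : Pt m => (g (vec p)).2.2) := h.snd.snd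
  have h4 : Measurable (fun p : Pt m => ((g (vec p)).2.2)⁻¹) := h3.inv
  unfold act pnt
  exact (h4.mul h1).prodMk (h4.smul h2)

end Pool.Agent.Helper19.Qh
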