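import Pool.Agent.Helper19.Qh.Stmts

set_option autoImplicit false

/-!
# Module WC : transport of weak eigenfunctions (port of Helper78/Pic/Green)
-/

namespace Pool.Agent.Helper19.Qh

open MeasureTheory Topology
open scoped ComplexConjugate

variable {m : ℕ}

theorem wc_contDiff_of_SD {f : Pt m → ℂ} {K : Set (Pt m)}
    (hK : IsClosed K) (hKU : K ⊆ SD m) (hf : ContDiffOn ℝ 1 f (SD m))
    (h0 : ∀ p, p ∉ K → f p = 0) : ContDiff ℝ 1 f := by
  rw [contDiff_iff_contDiffAt]
  intro p
  by_cases hp : p ∈ SD m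
  · exact hf.contDiffAt (isOpen_SD.mem_nhds hp)
  · have hpK : p ∈ Kᶜ := fun h => hp (hKU h)
    have hev : f =ᶠ[𝓝 p] fun _ => 0 := by
      filter_upwards [hK.isOpen_compl.mem_nhds hpK] with q hq
      exact h0 q hq
    exact contDiffAt_const.congr_of_eventuallyEq hev

noncomputable def wc_vX (e : E m) (p : Pt m) : Pt m := (-hin e p.2, e)

theorem wc_XX_eq (e : E m) (f : Pt m → ℂ) (p : Pt m) : XX e f p = pd (wc_vX e p) f p := rfl

theorem wc_cont_hin (e : E m) : Continuous fun p : Pt m => hin e p.2 := by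
  unfold hin
  refine continuous_finsetSum _ fun k _ => ?_
  have h : Continuous fun p : Pt m => p.2 k :=
    (PiLp.continuous_apply 2 (fun _ : Fin m => Q) k).comp continuous_snd
  exact continuous_const.mul h.star

theorem wc_cont_vX (e : E m) : Continuous (wc_vX e : Pt m → Pt m) :=
  (wc_cont_hin e).neg.prodMk continuous_const

theorem wc_continuousOn_pd (e : Pt m) {f : Pt m → ℂ} (hf : ContDiffOn ℝ 1 f (SD m)) :
    ContinuousOn (pd e f) (SD m) := by
  have h := hf.continuousOn_fderiv_of_isOpen isOpen_SD le_rfl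
  exact h.clm_apply continuousOn_const

theorem wc_continuousOn_XX (e : E m) {f : Pt m → ℂ} (hf : ContDiffOn ℝ 1 f (SD m)) :
    ContinuousOn (XX e f) (SD m) := by
  have h := hf.continuousOn_fderiv_of_isOpen isOpen_SD le_rfl
  exact h.clm_apply (wc_cont_vX e).continuousOn

theorem wc_differentiableAt_of {f : Pt m → ℂ} (hf : ContDiffOn ℝ 1 f (SD m)) {p : Pt m}
    (hp : p ∈ SD m) : DifferentiableAt ℝ f p :=
  (hf.contDiffAt (isOpen_SD.mem_nhds hp)).differentiableAt one_ne_zero

theorem wc_integral_act (hMP : ST_MP) {g : V m ≃ₗ[Q] V m} (hg : g ∈ UG m) {F : Pt m → ℂ}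
    (hF : AEStronglyMeasurable F (hyp m)) :
    ∫ p, F (act g p) ∂(hyp m) = ∫ p, F p ∂(hyp m) := by
  have hmp := hMP m g hg
  have hF' : AEStronglyMeasurable F (Measure.map (act g) (hyp m)) := by rw [hmp.map_eq]; exact hF
  have h := integral_map hmp.measurable.aemeasurable hF'
  rw [hmp.map_eq] at h
  exact h.symm

theorem wc_continuousOn_gdot {u v : Pt m → ℂ} (hu : ContDiffOn ℝ 1 u (SD m))
    (hv : ContDiffOn ℝ 1 v (SD m)) : ContinuousOn (gdot u v) (SD m) := by
  have h : ContinuousOn (fun p : Pt m => (hgt p : ℂ)) (SD m) :=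
    (Complex.continuous_ofReal.comp continuous_hgt).continuousOn
  refine ((h.pow 2).mul ?_).add (h.mul ?_)
  · exact continuousOn_finsetSum _ fun r _ =>
      (wc_continuousOn_pd (qu r, 0) hu).mul (wc_continuousOn_pd (qu r, 0) hv)
  · exact continuousOn_finsetSum _ fun k _ => continuousOn_finsetSum _ fun r _ =>
      (wc_continuousOn_XX (ek k (qu r)) hu).mul (wc_continuousOn_XX (ek k (qu r)) hv)

theorem wc_pd_congr (e : Pt m) {f h : Pt m → ℂ} {p : Pt m} (hfh : f =ᶠ[𝓝 p] h) :
    pd e f p = pd e h p := by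
  unfold pd; rw [hfh.fderiv_eq]

theorem wc_gdot_congr {f h f' h' : Pt m → ℂ} {p : Pt m} (hf : f =ᶠ[𝓝 p] f')
    (hh : h =ᶠ[𝓝 p] h') : gdot f h p = gdot f' h' p := by
  unfold gdot
  have e1 : ∀ e, XX e f p = XX e f' p := fun e => by
    rw [wc_XX_eq, wc_XX_eq, wc_pd_congr _ hf]
  have e3 : ∀ e, XX e h p = XX e h' p := fun e => by
    rw [wc_XX_eq, wc_XX_eq, wc_pd_congr _ hh]
  have e2 : ∀ e, pd e f p = pd e f' p := fun e => wc_pd_congr e hf
  have e4 : ∀ e, pd e h p = pd e h' p := fun e => wc_pd_congr e hh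
  simp only [e1, e2, e3, e4]

theorem wc_aesm_of {f : Pt m → ℂ} (hf : ContinuousOn f (SD m)) :
    AEStronglyMeasurable f (hyp m) := by
  have h : AEStronglyMeasurable f (volume.restrict (SD m)) :=
    hf.aestronglyMeasurable measurableSet_SD
  unfold hyp
  exact h.mono_ac (withDensity_absolutelyContinuous _ _)

open Classical in
theorem st_WC (hCD : ST_CD) (hGD : ST_GD) (hMP : ST_MP) : ST_WC := by
  intro m g hg u hu lam h φ hφ hc hs
  set ψ : Pt m → ℂ := fun p => if p ∈ SD m then φ (act g⁻¹ p) else 0 with hψ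
  set K : Set (Pt m) := act g '' tsupport φ with hK
  have hgi : g⁻¹ ∈ UG m := (UG m).inv_mem hg
  have hact : ContDiffOn ℝ 1 (act g⁻¹) (SD m) := (hCD m _ hgi).of_le (by norm_num)
  have hact' : ContDiffOn ℝ 1 (act g) (SD m) := (hCD m _ hg).of_le (by norm_num)
  have hKc : IsCompact K := hc.isCompact.image_of_continuousOn (hact'.continuousOn.mono hs)
  have hKU : K ⊆ SD m := by
    rintro _ ⟨p, hp, rfl⟩
    exact act_mem hg (hs hp)
  have hψ0 : ∀ p, p ∉ K → ψ p = 0 := by
    intro p hp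
    simp only [hψ]
    split_ifs with hpU
    · apply image_eq_zero_of_notMem_tsupport
      intro hmem
      exact hp ⟨_, hmem, act_act_inv hg hpU⟩
    · rfl
  have hψU : ContDiffOn ℝ 1 ψ (SD m) := by
    have : ContDiffOn ℝ 1 (fun p => φ (act g⁻¹ p)) (SD m) := hφ.comp_contDiffOn hact
    refine this.congr fun p hp => ?_
    simp only [hψ, hp, if_true]
  have hψC : ContDiff ℝ 1 ψ := wc_contDiff_of_SD hKc.isClosed hKU hψU hψ0
  have hψc : HasCompactSupport ψ := HasCompactSupport.intro hKc hψ0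
  have hψs : tsupport ψ ⊆ SD m := by
    refine subset_trans (closure_minimal ?_ hKc.isClosed) hKU
    intro p hp
    by_contra hn
    exact hp (hψ0 p hn)
  have hkey := h ψ hψC hψc hψs
  have hback : ∀ p ∈ SD m, ψ (act g p) = φ p := by
    intro p hp
    simp only [hψ, act_mem hg hp, if_true]
    rw [act_inv_act hg hp]
  have i1 : ∫ p, gdot (fun p => u (act g p)) φ p ∂(hyp m) = ∫ p, gdot u ψ p ∂(hyp m) := by
    rw [← wc_integral_act hMP hg (wc_aesm_of (wc_continuousOn_gdot hu hψU))]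
    refine integral_congr_ae ?_
    filter_upwards [ae_hyp_mem] with p hp
    rw [← hGD m g hg p hp _ _ (wc_differentiableAt_of hu (act_mem hg hp))
      (wc_differentiableAt_of hψU (act_mem hg hp))]
    refine wc_gdot_congr (Filter.EventuallyEq.refl _ _) ?_
    filter_upwards [isOpen_SD.mem_nhds hp] with q hq
    exact (hback q hq).symm
  have i2 : ∫ p, u (act g p) * φ p ∂(hyp m) = ∫ p, u p * ψ p ∂(hyp m) := by
    rw [← wc_integral_act hMP hg (F := fun p => u p * ψ p)
      (wc_aesm_of (hu.continuousOn.mul hψU.continuousOn))]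
    refine integral_congr_ae ?_
    filter_upwards [ae_hyp_mem] with p hp
    rw [hback p hp]
  rw [i1, i2]
  exact hkey

end Pool.Agent.Helper19.Qh
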